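import Pool.Agent.Work.MP_8941bc_co.Rot.Final

/-!
# The cop number of a connected graph is `o(p)`, `p` the order of its longest path (MP_8941bc_co, Q1)

The first part is the asymptotic statement: for every `ε > 0`, for all large enough `p`, every finite
connected graph whose longest path has `p` vertices has cop number less than `ε p`. The second part is
the literal negation of Q1.
-/

namespace Pool.Agent.Results.MP_8941bc_co.SublinearCopNumber

open CopPath

universe u

theorem result :
    (∀ ε : ℝ, 0 < ε → ∃ p₀ : ℕ, ∀ p : ℕ, p₀ ≤ p →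
      ∀ (V : Type u) [Finite V] (G : SimpleGraph V), G.Connected → LongestPath G p →
        (copNumber G : ℝ) < ε * p) ∧
    ¬ ∃ ε : ℝ, 0 < ε ∧ ∀ p : ℕ, 1 ≤ p →
      ∃ (V : Type u) (_ : Finite V) (G : SimpleGraph V), G.Connected ∧ LongestPath G p ∧
        ε * p ≤ (copNumber G : ℝ) := by
  refine ⟨copNumber_lt, ?_⟩
  rintro ⟨ε, hε, h⟩
  obtain ⟨p₀, hp₀⟩ := copNumber_lt.{u} ε hε
  obtain ⟨V, hV, G, hG, hL, hc⟩ := h (p₀ + 1) (by omega)
  have := hp₀ (p₀ + 1) (by omega) V G hG hL
  linarith

end Pool.Agent.Results.MP_8941bc_co.SublinearCopNumber
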